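import Mathlib

set_option autoImplicit false

namespace Pool.Agent.Results.MP_dd77b8_co.BorsukSmall

/-- The `j`-element subsets of `[n]`. -/
abbrev Sub (n j : ℕ) : Type := {S : Finset (Fin n) // S.card = j}

/-- `ℝ^d`, `d = C(n,4)`: real functions on the 4-subsets of `[n]` with the Euclidean norm. -/
abbrev Space (n : ℕ) : Type := EuclideanSpace ℝ (Sub n 4)

/-- `f_g(T)` is the product of the values of `g` on the four 3-subsets of `T`. -/
noncomputable def prodFun {n : ℕ} (g : Sub n 3 → ℝ) : Space n :=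
  WithLp.toLp 2 (fun T : Sub n 4 => ∏ S ∈ Finset.univ.filter (fun S : Sub n 3 => S.1 ⊆ T.1), g S)

/-- The unit vectors of the cone `U_{4,n} = {f_g}`. -/
def unitVectors (n : ℕ) : Set (Space n) := {f | (∃ g : Sub n 3 → ℝ, f = prodFun g) ∧ ‖f‖ = 1}

/-- `X` is a union of `m` sets, each of diameter strictly smaller than the diameter of `X`. -/
def HasPartition {E : Type} [PseudoMetricSpace E] (X : Set E) (m : ℕ) : Prop :=
  ∃ A : Fin m → Set E, X = (⋃ i, A i) ∧ ∀ i, Metric.diam (A i) < Metric.diam X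

/-- The Borsuk number. -/
noncomputable def borsuk {E : Type} [PseudoMetricSpace E] (X : Set E) : ℕ :=
  sInf {m : ℕ | HasPartition X m}

theorem prodFun_apply {n : ℕ} (g : Sub n 3 → ℝ) (T : Sub n 4) :
    prodFun g T = ∏ S ∈ Finset.univ.filter (fun S : Sub n 3 => S.1 ⊆ T.1), g S := rfl

theorem single_mem {n : ℕ} (T : Sub n 4) : EuclideanSpace.single T (1 : ℝ) ∈ unitVectors n := by
  refine ⟨⟨fun S => if S.1 ⊆ T.1 then 1 else 0, ?_⟩, by simp⟩
  ext T'
  rw [prodFun_apply, EuclideanSpace.single_apply]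
  by_cases h : T' = T
  · subst h
    rw [if_pos rfl, Finset.prod_eq_one]
    intro S hS
    rw [Finset.mem_filter] at hS
    rw [if_pos hS.2]
  · rw [if_neg h, eq_comm]
    have h1 : ∃ x ∈ T'.1, x ∉ T.1 := by
      by_contra hcon
      push Not at hcon
      apply h
      apply Subtype.ext
      apply Finset.eq_of_subset_of_card_le hcon
      rw [T.2, T'.2]
    obtain ⟨x, hx, hxT⟩ := h1
    have h2 : ∃ y ∈ T'.1, y ≠ x := by
      by_contra hcon
      push Not at hcon
      have : T'.1 ⊆ {x} := fun y hy => by rw [Finset.mem_singleton]; exact hcon y hy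
      have := Finset.card_le_card this
      rw [T'.2, Finset.card_singleton] at this
      omega
    obtain ⟨y, hy, hyx⟩ := h2
    let S : Sub n 3 := ⟨T'.1.erase y, by rw [Finset.card_erase_of_mem hy, T'.2]⟩
    apply Finset.prod_eq_zero (i := S)
    · rw [Finset.mem_filter]
      exact ⟨Finset.mem_univ _, Finset.erase_subset _ _⟩
    · rw [if_neg]
      intro hs
      exact hxT (hs (Finset.mem_erase.2 ⟨hyx.symm, hx⟩))

theorem bounded (n : ℕ) : Bornology.IsBounded (unitVectors n) := by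
  apply (Metric.isBounded_closedBall (x := (0 : Space n)) (r := 1)).subset
  intro f hf
  rw [mem_closedBall_zero_iff, hf.2]

theorem diam_ge {n : ℕ} (T T' : Sub n 4) (h : T ≠ T') : Real.sqrt 2 ≤ Metric.diam (unitVectors n) := by
  have h1 := Metric.dist_le_diam_of_mem (bounded n) (single_mem T) (single_mem T')
  have h2 : dist (EuclideanSpace.single T (1 : ℝ)) (EuclideanSpace.single T' (1 : ℝ)) = Real.sqrt 2 := by
    rw [dist_eq_norm]
    have h3 : ‖EuclideanSpace.single T (1 : ℝ) - EuclideanSpace.single T' (1 : ℝ)‖ ^ 2 = 2 := by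
      rw [norm_sub_sq_real]
      have : inner ℝ (EuclideanSpace.single T (1 : ℝ)) (EuclideanSpace.single T' (1 : ℝ)) = 0 := by
        rw [EuclideanSpace.inner_single_left]
        simp [EuclideanSpace.single_apply, h]
      rw [this]
      simp
      norm_num
    rw [← h3, Real.sqrt_sq (norm_nonneg _)]
  rw [← h2]; exact h1

/-- The class of the unit vectors `f_g` with prescribed sign pattern of `g` and prescribed position of
an entry of largest absolute value. -/
def cls (n : ℕ) (p : (Sub n 3 → SignType) × Sub n 4) : Set (Space n) :=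
  {f | (∃ g : Sub n 3 → ℝ, f = prodFun g ∧ ∀ S, SignType.sign (g S) = p.1 S) ∧ ‖f‖ = 1 ∧
    ∀ T, |f T| ≤ |f p.2|}

theorem max_entry {n : ℕ} {f : Space n} (hf : ‖f‖ = 1) {T0 : Sub n 4} (h : ∀ T, |f T| ≤ |f T0|) :
    1 ≤ (Fintype.card (Sub n 4) : ℝ) * |f T0| ^ 2 := by
  have h1 : ‖f‖ ^ 2 = ∑ T, |f T| ^ 2 := by
    rw [EuclideanSpace.norm_sq_eq]; simp
  rw [hf] at h1
  have h2 : ∑ T, |f T| ^ 2 ≤ ∑ _T : Sub n 4, |f T0| ^ 2 := by
    apply Finset.sum_le_sum
    intro T _
    exact pow_le_pow_left₀ (abs_nonneg _) (h T) 2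
  rw [Finset.sum_const, nsmul_eq_mul, Finset.card_univ] at h2
  linarith

theorem cls_dist {n : ℕ} (p : (Sub n 3 → SignType) × Sub n 4) {f h : Space n} (hf : f ∈ cls n p)
    (hh : h ∈ cls n p) :
    dist f h ≤ Real.sqrt (2 - 2 / (Fintype.card (Sub n 4) : ℝ)) := by
  obtain ⟨⟨g, hg, hgs⟩, hf1, hfm⟩ := hf
  obtain ⟨⟨k, hk, hks⟩, hh1, hhm⟩ := hh
  have hd : 0 < (Fintype.card (Sub n 4) : ℝ) := by
    have : 0 < Fintype.card (Sub n 4) := Fintype.card_pos_iff.2 ⟨p.2⟩
    exact_mod_cast this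
  have hnn : ∀ T, 0 ≤ f T * h T := by
    intro T
    rw [hg, hk, prodFun_apply, prodFun_apply, ← Finset.prod_mul_distrib]
    apply Finset.prod_nonneg
    intro S _
    have : SignType.sign (g S) = SignType.sign (k S) := by rw [hgs, hks]
    rcases lt_trichotomy (g S) 0 with h1 | h1 | h1
    · rw [sign_neg h1, eq_comm, sign_eq_neg_one_iff] at this
      exact (mul_pos_of_neg_of_neg h1 this).le
    · rw [h1, zero_mul]
    · rw [sign_pos h1, eq_comm, sign_eq_one_iff] at this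
      exact (mul_pos h1 this).le
  have hin : inner ℝ f h = ∑ T, f T * h T := by
    rw [PiLp.inner_apply]
    apply Finset.sum_congr rfl
    intro T _
    simp [mul_comm]
  have h0 : 1 / (Fintype.card (Sub n 4) : ℝ) ≤ inner ℝ f h := by
    rw [hin]
    have e1 := max_entry hf1 hfm
    have e2 := max_entry hh1 hhm
    have e3 : f p.2 * h p.2 ≤ ∑ T, f T * h T :=
      Finset.single_le_sum (fun T _ => hnn T) (Finset.mem_univ p.2)
    have e4 : f p.2 * h p.2 = |f p.2| * |h p.2| := by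
      rw [← abs_mul, abs_of_nonneg (hnn p.2)]
    have e5 : 1 ≤ (Fintype.card (Sub n 4) : ℝ) * (|f p.2| * |h p.2|) := by
      have h1 : 1 * 1 ≤ ((Fintype.card (Sub n 4) : ℝ) * |f p.2| ^ 2) * ((Fintype.card (Sub n 4) : ℝ) * |h p.2| ^ 2) :=
        mul_le_mul e1 e2 (by norm_num) (by positivity)
      have h2 : (1 : ℝ) ^ 2 ≤ ((Fintype.card (Sub n 4) : ℝ) * (|f p.2| * |h p.2|)) ^ 2 := by
        calc (1 : ℝ) ^ 2 = 1 * 1 := by ring
          _ ≤ _ := h1
          _ = _ := by ring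
      exact le_of_sq_le_sq h2 (by positivity)
    rw [div_le_iff₀ hd]
    calc (1 : ℝ) ≤ (Fintype.card (Sub n 4) : ℝ) * (|f p.2| * |h p.2|) := e5
      _ ≤ (∑ T, f T * h T) * (Fintype.card (Sub n 4) : ℝ) := by
        rw [mul_comm]
        apply mul_le_mul_of_nonneg_right _ hd.le
        rw [← e4]; exact e3
  rw [dist_eq_norm]
  apply Real.le_sqrt_of_sq_le
  rw [norm_sub_sq_real, hf1, hh1]
  have : 2 / (Fintype.card (Sub n 4) : ℝ) = 2 * (1 / (Fintype.card (Sub n 4) : ℝ)) := by ring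
  rw [this]
  linarith

theorem cover {n : ℕ} (hn : 5 ≤ n) : HasPartition (unitVectors n) (n.choose 4 * 3 ^ n.choose 3) := by
  classical
  have c3 : Fintype.card (Sub n 3) = n.choose 3 := by
    rw [Fintype.card_finset_len, Fintype.card_fin]
  have c4 : Fintype.card (Sub n 4) = n.choose 4 := by
    rw [Fintype.card_finset_len, Fintype.card_fin]
  have hcard : Fintype.card ((Sub n 3 → SignType) × Sub n 4) = n.choose 4 * 3 ^ n.choose 3 := by
    rw [Fintype.card_prod, Fintype.card_fun, c3, c4]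
    have : Fintype.card SignType = 3 := rfl
    rw [this, mul_comm]
  have h2 : 2 ≤ Fintype.card (Sub n 4) := by
    rw [c4]
    calc 2 ≤ Nat.choose 5 4 := by decide
      _ ≤ n.choose 4 := Nat.choose_le_choose 4 hn
  have hT : ∃ T T' : Sub n 4, T ≠ T' := Fintype.one_lt_card_iff.1 (by omega)
  obtain ⟨T, T', hTT⟩ := hT
  rw [← hcard]
  refine ⟨fun i => cls n ((Fintype.equivFin _).symm i), ?_, ?_⟩
  · ext f
    rw [Set.mem_iUnion]
    constructor
    · rintro ⟨⟨g, hg⟩, h1⟩
      obtain ⟨T0, -, hT0⟩ := Finset.exists_max_image Finset.univ (fun T => |f T|) ⟨T, Finset.mem_univ T⟩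
      refine ⟨(Fintype.equivFin _) (fun S => SignType.sign (g S), T0), ?_⟩
      rw [Equiv.symm_apply_apply]
      exact ⟨⟨g, hg, fun S => rfl⟩, h1, fun T => hT0 T (Finset.mem_univ T)⟩
    · rintro ⟨i, ⟨g, hg, -⟩, h1, -⟩
      exact ⟨⟨g, hg⟩, h1⟩
  · intro i
    have hd : 0 < (Fintype.card (Sub n 4) : ℝ) := by
      have : 0 < Fintype.card (Sub n 4) := by omega
      exact_mod_cast this
    calc Metric.diam (cls n ((Fintype.equivFin _).symm i))
        ≤ Real.sqrt (2 - 2 / (Fintype.card (Sub n 4) : ℝ)) :=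
          Metric.diam_le_of_forall_dist_le (Real.sqrt_nonneg _) fun f hf h hh => cls_dist _ hf hh
      _ < Real.sqrt 2 := by
          apply Real.sqrt_lt_sqrt
          · have h2' : (2 : ℝ) ≤ (Fintype.card (Sub n 4) : ℝ) := by exact_mod_cast h2
            have : 2 / (Fintype.card (Sub n 4) : ℝ) ≤ 2 := by
              rw [div_le_iff₀ hd]; linarith
            linarith
          · have : 0 < 2 / (Fintype.card (Sub n 4) : ℝ) := by positivity
            linarith
      _ ≤ Metric.diam (unitVectors n) := diam_ge T T' hTT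

theorem numeric {n : ℕ} (hn : 4194304 ≤ n) :
    ((n.choose 4 * 3 ^ n.choose 3 : ℕ) : ℝ) < Real.exp (((n.choose 4 : ℕ) : ℝ) ^ ((4 : ℝ) / 5)) := by
  set a := n.choose 3 with ha
  set t := n.choose 4 with ht
  obtain ⟨k, rfl⟩ : ∃ k, n = k + 3 := ⟨n - 3, by omega⟩
  have hk : 4194301 ≤ k := by omega
  have e1 : t * 4 = a * k := by
    have := Nat.choose_succ_right_eq (k + 3) 3
    rw [ht, ha]; simpa using this
  have e2 : a * 6 = (k + 3) * (k + 2) * (k + 1) := by
    have h1 := Nat.choose_succ_right_eq (k + 3) 2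
    have h2 := Nat.choose_succ_right_eq (k + 3) 1
    have h3 : (k + 3 - 2) = k + 1 := by omega
    have h4 : (k + 3 - 1) = k + 2 := by omega
    rw [h3] at h1
    rw [h4, Nat.choose_one_right] at h2
    rw [ha]
    calc (k + 3).choose 3 * 6 = ((k + 3).choose (2 + 1) * (2 + 1)) * 2 := by ring
      _ = ((k + 3).choose 2 * (k + 1)) * 2 := by rw [h1]
      _ = ((k + 3).choose (1 + 1) * (1 + 1)) * (k + 1) := by ring
      _ = (k + 3) * (k + 2) * (k + 1) := by rw [h2]
  have ha3 : a * 6 ≤ 8 * k ^ 3 := by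
    rw [e2]
    have h1 : k + 3 ≤ 2 * k := by omega
    have h2 : k + 2 ≤ 2 * k := by omega
    have h3 : k + 1 ≤ 2 * k := by omega
    calc (k + 3) * (k + 2) * (k + 1) ≤ (2 * k) * (2 * k) * (2 * k) :=
          Nat.mul_le_mul (Nat.mul_le_mul h1 h2) h3
      _ = 8 * k ^ 3 := by ring
  have hka : k ≤ a := by
    have : k * 6 ≤ a * 6 := by
      rw [e2]
      have h0 : 6 ≤ (k + 3) * (k + 2) := by nlinarith
      calc k * 6 ≤ (k + 1) * ((k + 3) * (k + 2)) := Nat.mul_le_mul (by omega) h0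
        _ = (k + 3) * (k + 2) * (k + 1) := by ring
    omega
  have h5 : (4 * a) ^ 5 ≤ t ^ 4 := by
    have h1 : 262144 * a ≤ k ^ 4 := by
      have h2 : 262144 * (a * 6) ≤ 6 * k ^ 4 := by
        calc 262144 * (a * 6) ≤ 262144 * (8 * k ^ 3) := Nat.mul_le_mul_left _ ha3
          _ = 2097152 * k ^ 3 := by ring
          _ ≤ (6 * k) * k ^ 3 := Nat.mul_le_mul_right _ (by omega)
          _ = 6 * k ^ 4 := by ring
      omega
    have h3 : (4 * a) ^ 5 * 256 ≤ t ^ 4 * 256 := by
      calc (4 * a) ^ 5 * 256 = a ^ 4 * (262144 * a) := by ring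
        _ ≤ a ^ 4 * k ^ 4 := Nat.mul_le_mul_left _ h1
        _ = (a * k) ^ 4 := by ring
        _ = (t * 4) ^ 4 := by rw [e1]
        _ = t ^ 4 * 256 := by ring
    exact Nat.le_of_mul_le_mul_right h3 (by norm_num)
  have h6 : (4 * a : ℝ) ≤ (t : ℝ) ^ ((4 : ℝ) / 5) := by
    have h7 : ((4 * a : ℝ)) ^ 5 ≤ (t : ℝ) ^ 4 := by exact_mod_cast h5
    have h8 : (4 * a : ℝ) = (((4 * a : ℝ)) ^ 5) ^ ((1 : ℝ) / 5) := by
      rw [← Real.rpow_natCast, ← Real.rpow_mul (by positivity)]
      norm_num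
    have h9 : (t : ℝ) ^ ((4 : ℝ) / 5) = ((t : ℝ) ^ 4) ^ ((1 : ℝ) / 5) := by
      rw [← Real.rpow_natCast, ← Real.rpow_mul (by positivity)]
      norm_num
    rw [h8, h9]
    exact Real.rpow_le_rpow (by positivity) h7 (by norm_num)
  have h10 : (3 : ℝ) ^ a ≤ Real.exp (2 * a) := by
    have : Real.exp (2 * (a : ℝ)) = Real.exp 2 ^ a := by
      rw [← Real.exp_nat_mul]; ring_nf
    rw [this]
    apply pow_le_pow_left₀ (by norm_num)
    have := Real.add_one_le_exp (2 : ℝ)
    linarith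
  have h11 : (t : ℝ) < Real.exp (2 * a) := by
    have h12 : t ≤ a ^ 2 := by
      have hx : t * 4 ≤ a * a := by rw [e1]; exact Nat.mul_le_mul_left _ hka
      have hy : t ≤ a * a := le_trans (Nat.le_mul_of_pos_right t (by norm_num)) hx
      rw [pow_two]; exact hy
    have h13 : (t : ℝ) ≤ (a : ℝ) ^ 2 := by exact_mod_cast h12
    have h14 : (a : ℝ) + 1 ≤ Real.exp a := Real.add_one_le_exp _
    have h15 : Real.exp (2 * (a : ℝ)) = Real.exp a ^ 2 := by
      rw [← Real.exp_nat_mul]; norm_num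
    rw [h15]
    have h16 : (0 : ℝ) ≤ a := Nat.cast_nonneg a
    have h17 : ((a : ℝ) + 1) ^ 2 ≤ Real.exp a ^ 2 := pow_le_pow_left₀ (by linarith) h14 2
    have h18 : (a : ℝ) ^ 2 < ((a : ℝ) + 1) ^ 2 := by
      apply pow_lt_pow_left₀ (by linarith) h16 (by norm_num)
    exact lt_of_le_of_lt h13 (lt_of_lt_of_le h18 h17)
  push_cast
  calc (t : ℝ) * 3 ^ a < Real.exp (2 * a) * Real.exp (2 * a) := by
        apply mul_lt_mul h11 h10 (by positivity) (Real.exp_pos _).le
    _ = Real.exp (4 * a) := by rw [← Real.exp_add]; ring_nf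
    _ ≤ _ := Real.exp_le_exp.2 h6

/-- For all sufficiently large `n`, the Borsuk number of `X_n` (which exists) is smaller than
`exp (C(n,4)^(4/5))`. -/
theorem result : ∃ N : ℕ, ∀ n : ℕ, N ≤ n →
    (∃ m : ℕ, HasPartition (unitVectors n) m) ∧
    (borsuk (unitVectors n) : ℝ) < Real.exp (((n.choose 4 : ℕ) : ℝ) ^ ((4 : ℝ) / 5)) := by
  refine ⟨4194304, fun n hn => ?_⟩
  have h := cover (n := n) (by omega)
  refine ⟨⟨_, h⟩, lt_of_le_of_lt ?_ (numeric hn)⟩
  exact_mod_cast Nat.sInf_le h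

end Pool.Agent.Results.MP_dd77b8_co.BorsukSmall
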